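import Pool.Agent.LensU.Spec

/-!
# From invariant monomials to the `1`-norm lattice counts
-/

set_option autoImplicit false

namespace Pool.Agent.LensU

open Finset

open Classical in
/-- the number of vectors of `1`-norm `l` of the congruence lattice -/
noncomputable def NN (n q : ℕ) (s : Fin n → ℕ) (l : ℕ) : ℕ :=
  ((Fintype.piFinset (fun _ : Fin n => Finset.Icc (-(l : ℤ)) (l : ℤ))).filter
    (fun a => ∑ j, |a j| = (l : ℤ) ∧ (∑ j, a j * (s j : ℤ)) ≡ 0 [ZMOD (q : ℤ)])).card

open Classical in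
/-- half sums -/
noncomputable def WW (n r : ℕ) : ℕ :=
  ((Fintype.piFinset (fun _ : Fin n => Finset.range (r + 1))).filter
    (fun c => 2 * ∑ j, c j = r)).card

open Classical in
theorem WW_zero (n : ℕ) : WW n 0 = 1 := by
  unfold WW
  rw [Finset.card_eq_one]
  refine ⟨fun _ => 0, ?_⟩
  ext c
  simp only [Finset.mem_filter, Fintype.mem_piFinset, Finset.mem_range, Finset.mem_singleton]
  constructor
  · rintro ⟨h1, -⟩
    funext j
    have := h1 j
    omega
  · rintro rfl
    simp

open Classical in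
/-- pairs `(λ, c)` -/
noncomputable def TT (n q : ℕ) (s : Fin n → ℕ) (k : ℕ) : Finset ((Fin n → ℤ) × (Fin n → ℕ)) :=
  ((Fintype.piFinset (fun _ : Fin n => Finset.Icc (-(k : ℤ)) (k : ℤ))) ×ˢ
    (Fintype.piFinset (fun _ : Fin n => Finset.range (k + 1)))).filter
    (fun x => ∑ j, |x.1 j| + 2 * ∑ j, (x.2 j : ℤ) = k ∧ (q : ℤ) ∣ ∑ j, x.1 j * (s j : ℤ))

open Classical in
theorem mem_TT {n q : ℕ} {s : Fin n → ℕ} {k : ℕ} {x : (Fin n → ℤ) × (Fin n → ℕ)} :
    x ∈ TT n q s k ↔
      ∑ j, |x.1 j| + 2 * ∑ j, (x.2 j : ℤ) = k ∧ (q : ℤ) ∣ ∑ j, x.1 j * (s j : ℤ) := by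
  unfold TT
  rw [Finset.mem_filter, Finset.mem_product, Fintype.mem_piFinset, Fintype.mem_piFinset]
  constructor
  · exact fun h => h.2
  · rintro ⟨h1, h2⟩
    have h3 : 0 ≤ ∑ j, (x.2 j : ℤ) := Finset.sum_nonneg fun j _ => by positivity
    have h4 : 0 ≤ ∑ j, |x.1 j| := Finset.sum_nonneg fun j _ => abs_nonneg _
    refine ⟨⟨fun j => ?_, fun j => ?_⟩, h1, h2⟩
    · have h5 : |x.1 j| ≤ ∑ j, |x.1 j| :=
        Finset.single_le_sum (f := fun j => |x.1 j|) (fun i _ => abs_nonneg _) (Finset.mem_univ j)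
      rw [Finset.mem_Icc, ← abs_le]
      omega
    · have h5 : (x.2 j : ℤ) ≤ ∑ j, (x.2 j : ℤ) :=
        Finset.single_le_sum (f := fun j => (x.2 j : ℤ)) (fun i _ => by positivity)
          (Finset.mem_univ j)
      rw [Finset.mem_range]
      omega

theorem degree_sum {n : ℕ} (m : Fin n ⊕ Fin n →₀ ℕ) :
    m.degree = ∑ j : Fin n, (m (Sum.inl j) + m (Sum.inr j)) := by
  rw [Finsupp.degree_eq_sum, Fintype.sum_sum_type, Finset.sum_add_distrib]

theorem card_MS_TT (n q : ℕ) (s : Fin n → ℕ) (k : ℕ) :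
    Nat.card (MS n q s k) = (TT n q s k).card := by
  classical
  set φ : (Fin n ⊕ Fin n →₀ ℕ) → (Fin n → ℤ) × (Fin n → ℕ) := fun m =>
    (fun j => (m (Sum.inl j) : ℤ) - m (Sum.inr j), fun j => min (m (Sum.inl j)) (m (Sum.inr j)))
    with hφ
  have hinj : Function.Injective φ := by
    intro m m' h
    have h1 := congrArg Prod.fst h
    have h2 := congrArg Prod.snd h
    ext i
    rcases i with j | j
    · have h3 := congrFun h1 j
      have h4 := congrFun h2 j
      simp only [hφ] at h3 h4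
      omega
    · have h3 := congrFun h1 j
      have h4 := congrFun h2 j
      simp only [hφ] at h3 h4
      omega
  have hsum : ∀ m : Fin n ⊕ Fin n →₀ ℕ,
      ∑ j, |(φ m).1 j| + 2 * ∑ j, ((φ m).2 j : ℤ) = (m.degree : ℤ) := by
    intro m
    rw [degree_sum, Finset.mul_sum, ← Finset.sum_add_distrib]
    push_cast
    refine Finset.sum_congr rfl fun j _ => ?_
    simp only [hφ]
    rcases le_total (m (Sum.inl j)) (m (Sum.inr j)) with h | h
    · rw [min_eq_left h, abs_of_nonpos (by omega)]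
      ring
    · rw [min_eq_right h, abs_of_nonneg (by omega)]
      ring
  have himg : φ '' (MS n q s k) = (TT n q s k : Set _) := by
    ext x
    constructor
    · rintro ⟨m, ⟨h1, h2⟩, rfl⟩
      rw [Finset.mem_coe, mem_TT]
      refine ⟨?_, h2⟩
      rw [hsum, h1]
    · intro hx
      rw [Finset.mem_coe, mem_TT] at hx
      set m : Fin n ⊕ Fin n →₀ ℕ := Finsupp.equivFunOnFinite.symm
        (Sum.elim (fun j => x.2 j + (x.1 j).toNat) (fun j => x.2 j + (-(x.1 j)).toNat)) with hm
      have hl : ∀ j, m (Sum.inl j) = x.2 j + (x.1 j).toNat := fun j => rfl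
      have hr : ∀ j, m (Sum.inr j) = x.2 j + (-(x.1 j)).toNat := fun j => rfl
      have hx1 : φ m = x := by
        apply Prod.ext
        · funext j
          show (m (Sum.inl j) : ℤ) - m (Sum.inr j) = x.1 j
          rw [hl, hr]
          omega
        · funext j
          show min (m (Sum.inl j)) (m (Sum.inr j)) = x.2 j
          rw [hl, hr]
          omega
      refine ⟨m, ⟨?_, ?_⟩, hx1⟩
      · have h3 := hsum m
        rw [hx1, hx.1] at h3
        exact_mod_cast h3.symm
      · have h4 : wt s m = ∑ j, (φ m).1 j * (s j : ℤ) := rfl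
        rw [h4, hx1]
        exact hx.2
  have h1 : (MS n q s k).ncard = (φ '' (MS n q s k)).ncard :=
    (Set.ncard_image_of_injective _ hinj).symm
  rw [Nat.card_coe_set_eq, h1, himg, Set.ncard_coe_finset]

theorem card_TT (n q : ℕ) (s : Fin n → ℕ) (k : ℕ) :
    (TT n q s k).card = ∑ l ∈ Finset.range (k + 1), NN n q s l * WW n (k - l) := by
  classical
  rw [Finset.card_eq_sum_card_fiberwise (f := fun x => (∑ j, |x.1 j|).toNat)
    (t := Finset.range (k + 1))]
  · refine Finset.sum_congr rfl fun l hl => ?_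
    have hlk : l ≤ k := by
      have := Finset.mem_range.1 hl
      omega
    unfold NN WW
    rw [← Finset.card_product]
    congr 1
    ext x
    have h3 : 0 ≤ ∑ j, (x.2 j : ℤ) := Finset.sum_nonneg fun j _ => by positivity
    have h4 : 0 ≤ ∑ j, |x.1 j| := Finset.sum_nonneg fun j _ => abs_nonneg _
    have h5 : ∀ j, |x.1 j| ≤ ∑ j, |x.1 j| := fun j =>
      Finset.single_le_sum (f := fun j => |x.1 j|) (fun i _ => abs_nonneg _) (Finset.mem_univ j)
    have h6 : ∀ j, (x.2 j : ℤ) ≤ ∑ j, (x.2 j : ℤ) := fun j =>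
      Finset.single_le_sum (f := fun j => (x.2 j : ℤ)) (fun i _ => by positivity)
        (Finset.mem_univ j)
    have h7 : (∑ j, (x.2 j : ℤ)) = ((∑ j, x.2 j : ℕ) : ℤ) := by push_cast; rfl
    rw [Finset.mem_filter, mem_TT, Finset.mem_product, Finset.mem_filter, Finset.mem_filter,
      Fintype.mem_piFinset, Fintype.mem_piFinset, Int.modEq_zero_iff_dvd]
    constructor
    · rintro ⟨⟨h1, h2⟩, h8⟩
      have h8' : (∑ j, |x.1 j|).toNat = l := h8
      refine ⟨⟨fun j => ?_, by omega, h2⟩, fun j => ?_, by omega⟩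
      · have := h5 j
        rw [Finset.mem_Icc, ← abs_le]
        omega
      · have := h6 j
        rw [Finset.mem_range]
        omega
    · rintro ⟨⟨h1, h2, h8⟩, h9, h10⟩
      refine ⟨⟨by omega, h8⟩, ?_⟩
      show (∑ j, |x.1 j|).toNat = l
      omega
  · intro x hx
    rw [Finset.mem_coe, mem_TT] at hx
    have h3 : 0 ≤ ∑ j, (x.2 j : ℤ) := Finset.sum_nonneg fun j _ => by positivity
    have h4 : 0 ≤ ∑ j, |x.1 j| := Finset.sum_nonneg fun j _ => abs_nonneg _
    rw [Finset.mem_coe, Finset.mem_range]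
    show (∑ j, |x.1 j|).toNat < k + 1
    omega

theorem NN_eq {n q : ℕ} {s s' : Fin n → ℕ}
    (h : ∀ k, Nat.card (MS n q s k) = Nat.card (MS n q s' k)) (k : ℕ) :
    NN n q s k = NN n q s' k := by
  induction k using Nat.strong_induction_on with
  | _ k ih =>
    have h1 := h k
    rw [card_MS_TT, card_MS_TT, card_TT, card_TT, Finset.sum_range_succ, Finset.sum_range_succ,
      Nat.sub_self, WW_zero, mul_one, mul_one] at h1
    have h2 : ∑ l ∈ Finset.range k, NN n q s l * WW n (k - l) =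
        ∑ l ∈ Finset.range k, NN n q s' l * WW n (k - l) :=
      Finset.sum_congr rfl fun l hl => by rw [ih l (Finset.mem_range.1 hl)]
    omega

end Pool.Agent.LensU
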