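import Mathlib

/-!
# Lens spaces: isometry by conjugacy in `O(2n)`, spectrum by invariant harmonic polynomials

Definitions for the own form of the theorem on spectrally unique lens spaces (beside S13123).
-/

set_option autoImplicit false

namespace Pool.Agent.LensU

open MvPolynomial

/-- `ℂⁿ` with its Euclidean norm, a real inner product space of dimension `2n`. -/
abbrev E (n : ℕ) : Type := EuclideanSpace ℂ (Fin n)

/-- The parameters `s = (s₁, …, sₙ)` of the lens spaces `L(q; s₁, …, sₙ)`: residues modulo `q`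
(represented in `{0, …, q - 1}`) which are coprime to `q`. -/
def params (n q : ℕ) : Finset (Fin n → ℕ) :=
  Fintype.piFinset fun _ => (Finset.range q).filter fun a => Nat.Coprime a q

/-- `exp (2 π i a / q)` -/
noncomputable def root (q : ℕ) (a : ℤ) : ℂ :=
  Complex.exp (2 * Real.pi * Complex.I * a / q)

/-- The generator `g` of the group of `L(q; s)`: the coordinate `z_j` is multiplied by
`exp (2 π i s_j / q)`. -/
noncomputable def gen (n q : ℕ) (s : Fin n → ℕ) (z : E n) : E n :=
  WithLp.toLp 2 fun j => root q (s j) * z j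

/-- The group `⟨g⟩` of `L(q; s)` as a set of maps: the powers `g ^ k` (as `g ^ q = 1` for `q ≥ 1`, the
exponents `k ≥ 0` suffice). -/
def deck (n q : ℕ) (s : Fin n → ℕ) : Set (E n → E n) :=
  Set.range fun k : ℕ => (gen n q s)^[k]

/-- The bijection `A` of `ℂⁿ` belongs to the orthogonal group `O(2n)` of `ℂⁿ = ℝ²ⁿ`: it is linear over `ℝ` and
preserves the Euclidean distance. -/
def IsOrthogonal {n : ℕ} (A : E n ≃ E n) : Prop := IsLinearMap ℝ A ∧ Isometry A

/-- The lens spaces `L(q; s) = S²ⁿ⁻¹/⟨g⟩` and `L(q; s') = S²ⁿ⁻¹/⟨g'⟩` are isometric: the groups `⟨g⟩` and `⟨g'⟩`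
are conjugate in `O(2n)`, that is `A ⟨g⟩ A⁻¹ = ⟨g'⟩` for some `A` in `O(2n)`. -/
def Isometric (n q : ℕ) (s s' : Fin n → ℕ) : Prop :=
  ∃ A : E n ≃ E n, IsOrthogonal A ∧ (fun f => A ∘ f ∘ A.symm) '' deck n q s = deck n q s'

/-- Complex valued polynomial functions on `ℂⁿ = ℝ²ⁿ`, as polynomials in the coordinates `z_j`
(the variable `Sum.inl j`) and their conjugates (the variable `Sum.inr j`). -/
abbrev Poly (n : ℕ) : Type := MvPolynomial (Fin n ⊕ Fin n) ℂ

/-- The Laplacian `∑ (∂²/∂x_j² + ∂²/∂y_j²)` of `ℝ²ⁿ`, `z_j = x_j + i y_j`; it is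
`4 ∑ ∂²/∂z_j ∂z̄_j`. -/
noncomputable def laplacian (n : ℕ) (p : Poly n) : Poly n :=
  (4 : ℂ) • ∑ j : Fin n, pderiv (Sum.inl j) (pderiv (Sum.inr j) p)

/-- The composition `p ∘ g`: `z_j` is replaced by `exp (2 π i s_j / q) z_j`, and its conjugate by
`exp (-2 π i s_j / q)` times it. -/
noncomputable def compGen (n q : ℕ) (s : Fin n → ℕ) (p : Poly n) : Poly n :=
  aeval (Sum.elim (fun j => (C (root q (s j)) * X (Sum.inl j) : Poly n))
    (fun j => (C (root q (-(s j : ℤ))) * X (Sum.inr j) : Poly n))) p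

/-- `p` is a harmonic homogeneous polynomial of degree `k` on `ℝ²ⁿ` which is invariant under `g`. -/
def InvariantHarmonic (n q : ℕ) (s : Fin n → ℕ) (k : ℕ) (p : Poly n) : Prop :=
  p.IsHomogeneous k ∧ laplacian n p = 0 ∧ compGen n q s p = p

theorem invariantHarmonic_add {n q : ℕ} {s : Fin n → ℕ} {k : ℕ} {a b : Poly n}
    (ha : InvariantHarmonic n q s k a) (hb : InvariantHarmonic n q s k b) :
    InvariantHarmonic n q s k (a + b) := by
  obtain ⟨h1, h2, h3⟩ := ha
  obtain ⟨h4, h5, h6⟩ := hb
  refine ⟨h1.add h4, ?_, ?_⟩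
  · have : laplacian n (a + b) = laplacian n a + laplacian n b := by
      simp only [laplacian, map_add, Finset.sum_add_distrib, smul_add]
    rw [this, h2, h5, add_zero]
  · simp only [compGen, map_add] at h3 h6 ⊢
    rw [h3, h6]

theorem invariantHarmonic_zero {n q : ℕ} {s : Fin n → ℕ} {k : ℕ} :
    InvariantHarmonic n q s k 0 := by
  refine ⟨isHomogeneous_zero _ _ _, ?_, ?_⟩
  · simp [laplacian]
  · simp [compGen]

theorem invariantHarmonic_smul {n q : ℕ} {s : Fin n → ℕ} {k : ℕ} (c : ℂ) {a : Poly n}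
    (ha : InvariantHarmonic n q s k a) : InvariantHarmonic n q s k (c • a) := by
  obtain ⟨h1, h2, h3⟩ := ha
  refine ⟨?_, ?_, ?_⟩
  · rw [smul_eq_C_mul]
    exact h1.C_mul c
  · have : laplacian n (c • a) = c • laplacian n a := by
      simp only [laplacian, Derivation.map_smul, ← Finset.smul_sum]
      rw [smul_comm]
    rw [this, h2, smul_zero]
  · simp only [compGen, map_smul] at h3 ⊢
    rw [h3]

/-- The eigenspace of the Laplace-Beltrami operator of `L(q; s)` for the eigenvalue `k (k + 2n - 2)`: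
the harmonic homogeneous polynomials of degree `k` on `ℝ²ⁿ` which are invariant under `g` (restricted
to the sphere and pushed to the quotient). -/
noncomputable def eigenspace (n q : ℕ) (s : Fin n → ℕ) (k : ℕ) : Submodule ℂ (Poly n) where
  carrier := {p | InvariantHarmonic n q s k p}
  add_mem' := invariantHarmonic_add
  zero_mem' := invariantHarmonic_zero
  smul_mem' := fun c _ h => invariantHarmonic_smul c h

/-- `Spec (L(q; s)) = Spec (L(q; s'))`: all eigenvalues have the same multiplicity. -/
def SameSpectrum (n q : ℕ) (s s' : Fin n → ℕ) : Prop :=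
  ∀ k : ℕ, Module.finrank ℂ (eigenspace n q s k) = Module.finrank ℂ (eigenspace n q s' k)

theorem isOrthogonal_iff {n : ℕ} (A : E n ≃ E n) :
    IsOrthogonal A ↔ ∃ B : E n ≃ₗᵢ[ℝ] E n, A = B.toLinearEquiv.toEquiv := by
  constructor
  · rintro ⟨h1, h2⟩
    have h0 : A 0 = 0 := h1.map_zero
    refine ⟨⟨{ A with
      map_add' := h1.map_add
      map_smul' := h1.map_smul }, fun x => h2.norm_map_of_map_zero h0 x⟩, ?_⟩
    ext z
    rfl
  · rintro ⟨B, rfl⟩
    exact ⟨⟨B.map_add, B.map_smul⟩, B.isometry⟩

/-- the definition in terms of linear isometry equivalences -/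
theorem isometric_iff_exists {n q : ℕ} {s s' : Fin n → ℕ} : Isometric n q s s' ↔
    ∃ A : E n ≃ₗᵢ[ℝ] E n, (fun (f : E n → E n) z => A (f (A.symm z))) '' deck n q s =
      deck n q s' := by
  constructor
  · rintro ⟨A, hA, h⟩
    obtain ⟨B, rfl⟩ := (isOrthogonal_iff A).1 hA
    exact ⟨B, h⟩
  · rintro ⟨B, h⟩
    exact ⟨B.toLinearEquiv.toEquiv, (isOrthogonal_iff _).2 ⟨B, rfl⟩, h⟩

theorem isometric_equivalence (n q : ℕ) : Equivalence (Isometric n q) := by
  constructor
  · intro s
    rw [isometric_iff_exists]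
    refine ⟨LinearIsometryEquiv.refl ℝ (E n), ?_⟩
    have : (fun (f : E n → E n) z => LinearIsometryEquiv.refl ℝ (E n)
        (f ((LinearIsometryEquiv.refl ℝ (E n)).symm z))) = id := by
      funext f z
      rfl
    rw [this, Set.image_id]
  · intro s s' hss
    rw [isometric_iff_exists] at hss ⊢
    obtain ⟨A, hA⟩ := hss
    refine ⟨A.symm, ?_⟩
    rw [← hA, Set.image_image]
    have : (fun (f : E n → E n) => (fun z => A.symm ((fun z => A (f (A.symm z)))
        (A.symm.symm z)))) = id := by
      funext f z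
      simp
    rw [this, Set.image_id]
  · intro s s' s'' hss hss'
    rw [isometric_iff_exists] at hss hss' ⊢
    obtain ⟨A, hA⟩ := hss
    obtain ⟨B, hB⟩ := hss'
    refine ⟨A.trans B, ?_⟩
    rw [← hB, ← hA, Set.image_image]
    rfl

theorem isometric_equivalence' (n q : ℕ) :
    Equivalence fun s s' : params n q => Isometric n q s s' :=
  ⟨fun s => (isometric_equivalence n q).refl s, fun h => (isometric_equivalence n q).symm h,
    fun h h' => (isometric_equivalence n q).trans h h'⟩

/-- Isometry as an equivalence relation on the parameters. -/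
def isomSetoid (n q : ℕ) : Setoid (params n q) :=
  ⟨fun s s' => Isometric n q s s', isometric_equivalence' n q⟩

/-- `𝔏(n, q)`: the isometry classes of the `(2n-1)`-dimensional lens spaces with fundamental group of
order `q`. -/
def Lens (n q : ℕ) : Type := Quotient (isomSetoid n q)

/-- The class `L` is spectrally unique: every lens space (of the same dimension and the same order of
the fundamental group) with the same spectrum is in the class `L`. -/
def SpectrallyUnique (n q : ℕ) (L : Lens n q) : Prop :=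
  ∀ s : params n q, Quotient.mk (isomSetoid n q) s = L →
    ∀ s' : params n q, SameSpectrum n q s s' → Quotient.mk (isomSetoid n q) s' = L

/-- The proportion `𝒰_n(x)` of the spectrally unique classes among all classes of order `q ≤ x`. -/
noncomputable def U (n : ℕ) (x : ℝ) : ℝ :=
  (∑ q ∈ Finset.Icc 1 ⌊x⌋₊, (Nat.card {L : Lens n q // SpectrallyUnique n q L} : ℝ)) /
    ∑ q ∈ Finset.Icc 1 ⌊x⌋₊, (Nat.card (Lens n q) : ℝ)

end Pool.Agent.LensU
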