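import Pool.Agent.LensU.Defs

/-!
# Conjugacy in `O(2n)` is the combinatorial criterion
-/

set_option autoImplicit false

namespace Pool.Agent.LensU

open Complex

theorem root_add (q : ℕ) (a b : ℤ) : root q (a + b) = root q a * root q b := by
  unfold root
  rw [← Complex.exp_add]
  congr 1
  push_cast
  ring

theorem root_zero (q : ℕ) : root q 0 = 1 := by
  unfold root
  simp

theorem root_eq_one_iff {q : ℕ} (hq : 1 ≤ q) (a : ℤ) : root q a = 1 ↔ (q : ℤ) ∣ a := by
  have hq0 : (q : ℂ) ≠ 0 := by exact_mod_cast (by omega : q ≠ 0)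
  have hpi : (Real.pi : ℂ) ≠ 0 := by exact_mod_cast Real.pi_ne_zero
  unfold root
  rw [Complex.exp_eq_one_iff]
  constructor
  · rintro ⟨k, hk⟩
    refine ⟨k, ?_⟩
    have h1 : (a : ℂ) = q * k := by
      have h2 : (2 * (Real.pi : ℂ) * I) ≠ 0 := by
        simp [hpi]
      field_simp at hk
      have h3 : (2 * (Real.pi : ℂ) * I) * a = (2 * (Real.pi : ℂ) * I) * (q * k) := by
        linear_combination (2 * (Real.pi : ℂ) * I) * hk
      exact mul_left_cancel₀ h2 h3
    exact_mod_cast h1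
  · rintro ⟨k, rfl⟩
    refine ⟨k, ?_⟩
    push_cast
    field_simp

theorem root_ne_zero (q : ℕ) (a : ℤ) : root q a ≠ 0 := Complex.exp_ne_zero _

theorem root_eq_iff {q : ℕ} (hq : 1 ≤ q) (a b : ℤ) : root q a = root q b ↔ (q : ℤ) ∣ a - b := by
  rw [← root_eq_one_iff hq]
  have h : root q a = root q (a - b) * root q b := by
    rw [← root_add]
    congr 1
    ring
  constructor
  · intro h1
    rw [h1] at h
    have h2 := root_ne_zero q b
    have h3 : 1 * root q b = root q (a - b) * root q b := by rw [one_mul]; exact h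
    exact (mul_right_cancel₀ h2 h3).symm
  · intro h1
    rw [h, h1, one_mul]

/-- the generator as a linear isometry -/
noncomputable def genI (n q : ℕ) (s : Fin n → ℕ) : E n ≃ₗᵢ[ℝ] E n :=
  LinearIsometryEquiv.piLpCongrRight 2 fun j => rotation (Circle.exp (2 * Real.pi * s j / q))

/-- conjugacy of the groups in the group of linear isometries -/
def IsometricG (n q : ℕ) (s s' : Fin n → ℕ) : Prop :=
  ∃ A : E n ≃ₗᵢ[ℝ] E n,
    (Subgroup.zpowers (genI n q s)).map (MulAut.conj A).toMonoidHom =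
      Subgroup.zpowers (genI n q s')

theorem gen_apply (n q : ℕ) (s : Fin n → ℕ) (z : E n) (j : Fin n) :
    genI n q s z j = root q (s j) * z j := by
  unfold genI root
  rw [LinearIsometryEquiv.piLpCongrRight_apply]
  show rotation (Circle.exp (2 * Real.pi * s j / q)) (z j) = _
  rw [rotation_apply, Circle.coe_exp]
  congr 2
  push_cast
  ring

theorem gen_pow_apply (n q : ℕ) (s : Fin n → ℕ) (m : ℕ) (z : E n) (j : Fin n) :
    (genI n q s ^ m) z j = root q (m * s j) * z j := by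
  induction m generalizing z with
  | zero => simp [root_zero]
  | succ m ih =>
    rw [pow_succ]
    show (genI n q s ^ m) (genI n q s z) j = _
    rw [ih, gen_apply, ← mul_assoc, ← root_add]
    congr 2
    push_cast
    ring

theorem gen_pow_q {n q : ℕ} (hq : 1 ≤ q) (s : Fin n → ℕ) : genI n q s ^ q = 1 := by
  ext z j
  rw [gen_pow_apply, (root_eq_one_iff hq _).2 (Dvd.intro _ rfl), one_mul]
  rfl

theorem gen_finOrder {n q : ℕ} (hq : 1 ≤ q) (s : Fin n → ℕ) : IsOfFinOrder (genI n q s) :=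
  isOfFinOrder_iff_pow_eq_one.2 ⟨q, hq, gen_pow_q hq s⟩

/-- the vectors supported on the coordinates with `f j = c` -/
def Nsub {n : ℕ} (f : Fin n → ℝ) (c : ℝ) : Submodule ℝ (E n) where
  carrier := {z | ∀ j, f j ≠ c → z j = 0}
  add_mem' := by
    intro a b ha hb j hj
    show a j + b j = 0
    rw [ha j hj, hb j hj, add_zero]
  zero_mem' := fun j _ => rfl
  smul_mem' := by
    intro r a ha j hj
    show r • a j = 0
    rw [ha j hj, smul_zero]

theorem mem_Nsub {n : ℕ} {f : Fin n → ℝ} {c : ℝ} {z : E n} :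
    z ∈ Nsub f c ↔ ∀ j, f j ≠ c → z j = 0 := Iff.rfl

open Classical in
theorem finrank_Nsub {n : ℕ} (f : Fin n → ℝ) (c : ℝ) :
    Module.finrank ℝ (Nsub f c) = 2 * Fintype.card {j // f j = c} := by
  have e : Nsub f c ≃ₗ[ℝ] ({j // f j = c} → ℂ) :=
    { toFun := fun z j => z.1 j.1
      map_add' := fun a b => rfl
      map_smul' := fun r a => rfl
      invFun := fun w => ⟨WithLp.toLp 2 (fun j => if h : f j = c then w ⟨j, h⟩ else 0), by
        intro j hj
        show (if h : f j = c then w ⟨j, h⟩ else 0) = 0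
        rw [dif_neg hj]⟩
      left_inv := by
        intro z
        ext j
        show (if h : f j = c then z.1 j else 0) = z.1 j
        by_cases h : f j = c
        · rw [dif_pos h]
        · rw [dif_neg h]
          exact (z.2 j h).symm
      right_inv := by
        intro w
        funext j
        show (if h : f j.1 = c then w ⟨j.1, h⟩ else 0) = w j
        rw [dif_pos j.2] }
  rw [e.finrank_eq, Module.finrank_pi_fintype]
  simp [Complex.finrank_real_complex, mul_comm]

theorem inv_apply_of {n : ℕ} {T : E n ≃ₗᵢ[ℝ] E n} {θ : Fin n → ℝ}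
    (hT : ∀ z j, T z j = Complex.exp (θ j * I) * z j) (z : E n) (j : Fin n) :
    T⁻¹ z j = Complex.exp (-(θ j * I)) * z j := by
  have h1 : T (T⁻¹ z) = z := T.apply_symm_apply z
  have h2 := hT (T⁻¹ z) j
  rw [h1] at h2
  rw [h2, ← mul_assoc, ← Complex.exp_add, neg_add_cancel, Complex.exp_zero, one_mul]

theorem mem_Nsub_iff {n : ℕ} {T : E n ≃ₗᵢ[ℝ] E n} {θ : Fin n → ℝ}
    (hT : ∀ z j, T z j = Complex.exp (θ j * I) * z j) (c : ℝ) (z : E n) :
    z ∈ Nsub (fun j => Real.cos (θ j)) c ↔ T z + T⁻¹ z = (2 * c) • z := by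
  have key : ∀ j, (T z + T⁻¹ z) j = (2 * Real.cos (θ j) : ℝ) * z j := by
    intro j
    show T z j + T⁻¹ z j = _
    rw [hT, inv_apply_of hT, ← add_mul]
    congr 1
    push_cast
    rw [Complex.cos, neg_mul]
    ring
  constructor
  · intro h
    ext j
    rw [key]
    show _ = (2 * c) • z j
    by_cases hj : Real.cos (θ j) = c
    · rw [hj, Complex.real_smul]
    · rw [h j hj]
      simp
  · intro h j hj
    have h1 := congrArg (fun w : E n => w j) h
    have h2 : (2 * Real.cos (θ j) : ℝ) * z j = (2 * c : ℝ) * z j := by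
      rw [← key j]
      refine h1.trans ?_
      show (2 * c) • z j = _
      rw [Complex.real_smul]
    by_contra hz
    have h3 := mul_right_cancel₀ hz h2
    have h4 : 2 * Real.cos (θ j) = 2 * c := Complex.ofReal_injective h3
    exact hj (by linarith)

theorem map_Nsub_le {n : ℕ} {A T T' : E n ≃ₗᵢ[ℝ] E n} {θ θ' : Fin n → ℝ}
    (hT : ∀ z j, T z j = Complex.exp (θ j * I) * z j)
    (hT' : ∀ z j, T' z j = Complex.exp (θ' j * I) * z j)
    (hA : A * T = T' * A) (c : ℝ) (z : E n) (hz : z ∈ Nsub (fun j => Real.cos (θ j)) c) :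
    A z ∈ Nsub (fun j => Real.cos (θ' j)) c := by
  rw [mem_Nsub_iff hT] at hz
  rw [mem_Nsub_iff hT']
  have hA' : A * T⁻¹ = T'⁻¹ * A := by
    have : T' * (A * T⁻¹) = A := by
      rw [← mul_assoc, ← hA, mul_assoc, mul_inv_cancel, mul_one]
    calc A * T⁻¹ = T'⁻¹ * (T' * (A * T⁻¹)) := by rw [← mul_assoc, inv_mul_cancel, one_mul]
      _ = T'⁻¹ * A := by rw [this]
  have h1 : T' (A z) = A (T z) := (congrArg (fun B : E n ≃ₗᵢ[ℝ] E n => B z) hA).symm
  have h2 : T'⁻¹ (A z) = A (T⁻¹ z) := (congrArg (fun B : E n ≃ₗᵢ[ℝ] E n => B z) hA').symm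
  rw [h1, h2, ← map_add, hz, LinearIsometryEquiv.map_smul]

theorem card_fibre {n : ℕ} {A T T' : E n ≃ₗᵢ[ℝ] E n} {θ θ' : Fin n → ℝ}
    (hT : ∀ z j, T z j = Complex.exp (θ j * I) * z j)
    (hT' : ∀ z j, T' z j = Complex.exp (θ' j * I) * z j)
    (hA : A * T = T' * A) (c : ℝ) :
    Nonempty ({j // Real.cos (θ' j) = c} ≃ {j // Real.cos (θ j) = c}) := by
  classical
  have h1 : (Nsub (fun j => Real.cos (θ j)) c).map (A.toLinearEquiv : E n →ₗ[ℝ] E n) =
      Nsub (fun j => Real.cos (θ' j)) c := by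
    apply le_antisymm
    · rintro _ ⟨z, hz, rfl⟩
      exact map_Nsub_le hT hT' hA c z hz
    · intro w hw
      have hA2 : A⁻¹ * T' = T * A⁻¹ := by
        calc A⁻¹ * T' = A⁻¹ * (T' * A) * A⁻¹ := by
              rw [← mul_assoc, mul_assoc (A⁻¹ * T'), mul_inv_cancel, mul_one]
          _ = A⁻¹ * (A * T) * A⁻¹ := by rw [hA]
          _ = T * A⁻¹ := by rw [← mul_assoc, inv_mul_cancel, one_mul]
      refine ⟨A⁻¹ w, map_Nsub_le hT' hT hA2 c w hw, ?_⟩
      exact A.apply_symm_apply w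
  have h2 := (A.toLinearEquiv.submoduleMap (Nsub (fun j => Real.cos (θ j)) c)).finrank_eq
  have h3 : Module.finrank ℝ (Nsub (fun j => Real.cos (θ j)) c) =
      Module.finrank ℝ (Nsub (fun j => Real.cos (θ' j)) c) := by
    rw [h2, ← h1]
  rw [finrank_Nsub, finrank_Nsub] at h3
  have h4 : Fintype.card {j // Real.cos (θ' j) = c} = Fintype.card {j // Real.cos (θ j) = c} := by
    omega
  exact ⟨Fintype.equivOfCardEq h4⟩

/-- the combinatorial criterion -/
def IsoComb (n q : ℕ) (s s' : Fin n → ℕ) : Prop :=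
  ∃ σ : Equiv.Perm (Fin n), ∃ ε : Fin n → ℤ, (∀ j, ε j = 1 ∨ ε j = -1) ∧
    ∃ t : ℕ, Nat.Coprime t q ∧
      ∀ j, (s' j : ℤ) ≡ ε j * (t : ℤ) * (s (σ j) : ℤ) [ZMOD (q : ℤ)]

theorem mem_params {n q : ℕ} {s : Fin n → ℕ} :
    s ∈ params n q ↔ ∀ j, s j < q ∧ Nat.Coprime (s j) q := by
  unfold params
  simp [Fintype.mem_piFinset]

theorem comb_of_isometric {n q : ℕ} (hn : 1 ≤ n) (hq : 1 ≤ q) {s s' : Fin n → ℕ}
    (hs : s ∈ params n q) (h : IsometricG n q s s') : IsoComb n q s s' := by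
  obtain ⟨A, hA⟩ := h
  have hq0 : (q : ℝ) ≠ 0 := by exact_mod_cast (by omega : q ≠ 0)
  -- `g' = A g^t A⁻¹`
  have h1 : genI n q s' ∈ (Subgroup.zpowers (genI n q s)).map (MulAut.conj A).toMonoidHom := by
    rw [hA]
    exact Subgroup.mem_zpowers _
  obtain ⟨x, hx, hxg⟩ := h1
  have hx' : x ∈ Submonoid.powers (genI n q s) :=
    (gen_finOrder hq s).mem_powers_iff_mem_zpowers.2 hx
  obtain ⟨t, ht⟩ := hx'
  have ht' : genI n q s ^ t = x := ht
  have hg' : A * genI n q s ^ t = genI n q s' * A := by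
    have h2 : A * x * A⁻¹ = genI n q s' := hxg
    rw [ht', ← h2, mul_assoc, inv_mul_cancel, mul_one]
  have hg'' : genI n q s' = A * genI n q s ^ t * A⁻¹ := by
    rw [hg', mul_assoc, mul_inv_cancel, mul_one]
  -- `t` is a unit
  have htq : Nat.Coprime t q := by
    have h2 : A * genI n q s * A⁻¹ ∈ Subgroup.zpowers (genI n q s') := by
      rw [← hA]
      exact ⟨genI n q s, Subgroup.mem_zpowers _, rfl⟩
    have h3 : A * genI n q s * A⁻¹ ∈ Submonoid.powers (genI n q s') :=
      (gen_finOrder hq s').mem_powers_iff_mem_zpowers.2 h2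
    obtain ⟨r, hr⟩ := h3
    have hr' : genI n q s' ^ r = A * genI n q s * A⁻¹ := hr
    rw [hg'', conj_pow, ← pow_mul] at hr'
    have h4 : genI n q s ^ (t * r) = genI n q s := mul_left_cancel (mul_right_cancel hr')
    obtain ⟨j, -⟩ : ∃ j : Fin n, True := ⟨⟨0, hn⟩, trivial⟩
    have h5 := congrArg (fun B : E n ≃ₗᵢ[ℝ] E n => B (EuclideanSpace.single j (1 : ℂ)) j) h4
    simp only [gen_pow_apply, gen_apply] at h5
    simp only [PiLp.single_apply, if_true, mul_one] at h5
    rw [root_eq_iff hq] at h5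
    have h6 : (q : ℤ) ∣ ((t * r : ℕ) - 1 : ℤ) * s j := by
      have : (((t * r : ℕ) : ℤ) - 1) * (s j : ℤ) = ((t * r : ℕ) : ℤ) * (s j : ℤ) - s j := by ring
      rw [this]
      exact h5
    have h7 : IsCoprime (q : ℤ) (s j : ℤ) :=
      (Nat.isCoprime_iff_coprime.2 (mem_params.1 hs j).2).symm
    have h8 : (q : ℤ) ∣ ((t * r : ℕ) : ℤ) - 1 := h7.dvd_of_dvd_mul_right h6
    rw [← Nat.isCoprime_iff_coprime]
    obtain ⟨w, hw⟩ := h8
    refine ⟨r, -w, ?_⟩
    push_cast at hw
    linear_combination hw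
  -- the angles
  have hT : ∀ z j, (genI n q s ^ t) z j =
      Complex.exp (((2 * Real.pi * (t * s j : ℕ) / q : ℝ) : ℂ) * I) * z j := by
    intro z j
    rw [gen_pow_apply]
    unfold root
    congr 2
    push_cast
    ring
  have hT' : ∀ z j, (genI n q s') z j =
      Complex.exp (((2 * Real.pi * (s' j : ℕ) / q : ℝ) : ℂ) * I) * z j := by
    intro z j
    rw [gen_apply]
    unfold root
    congr 2
    push_cast
    ring
  have hfib := fun c => card_fibre (θ := fun j => 2 * Real.pi * (t * s j : ℕ) / q)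
    (θ' := fun j => 2 * Real.pi * (s' j : ℕ) / q) hT hT' hg' c
  obtain ⟨e, -⟩ : ∃ e : ∀ c : ℝ, {j : Fin n // Real.cos (2 * Real.pi * (s' j : ℕ) / q) = c} ≃
      {j : Fin n // Real.cos (2 * Real.pi * (t * s j : ℕ) / q) = c}, True :=
    ⟨fun c => (hfib c).some, trivial⟩
  obtain ⟨σ, hσ⟩ : ∃ σ : Equiv.Perm (Fin n), ∀ j, Real.cos (2 * Real.pi * (t * s (σ j) : ℕ) / q) =
      Real.cos (2 * Real.pi * (s' j : ℕ) / q) :=
    ⟨Equiv.ofFiberEquiv (f := fun j : Fin n => Real.cos (2 * Real.pi * (s' j : ℕ) / q))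
      (g := fun j : Fin n => Real.cos (2 * Real.pi * (t * s j : ℕ) / q)) e,
      fun j => Equiv.ofFiberEquiv_map e j⟩
  have hε : ∀ j, ∃ ε : ℤ, (ε = 1 ∨ ε = -1) ∧
      (s' j : ℤ) ≡ ε * (t : ℤ) * (s (σ j) : ℤ) [ZMOD (q : ℤ)] := by
    intro j
    obtain ⟨k, hk⟩ := Real.cos_eq_cos_iff.1 (hσ j)
    have hpi := Real.pi_pos
    rcases hk with hk | hk
    · refine ⟨1, Or.inl rfl, ?_⟩
      have h2 : (s' j : ℝ) = k * q + (t * s (σ j) : ℕ) := by
        field_simp at hk
        nlinarith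
      have h3 : (s' j : ℤ) = k * q + (t * s (σ j) : ℕ) := by exact_mod_cast h2
      rw [h3]
      push_cast
      rw [Int.modEq_iff_dvd]
      exact ⟨-k, by ring⟩
    · refine ⟨-1, Or.inr rfl, ?_⟩
      have h2 : (s' j : ℝ) = k * q - (t * s (σ j) : ℕ) := by
        field_simp at hk
        nlinarith
      have h3 : (s' j : ℤ) = k * q - (t * s (σ j) : ℕ) := by exact_mod_cast h2
      rw [h3]
      push_cast
      rw [Int.modEq_iff_dvd]
      exact ⟨-k, by ring⟩
  choose ε hε1 hε2 using hε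
  exact ⟨σ, ε, hε1, t, htq, hε2⟩

theorem isometric_of_comb {n q : ℕ} (hq : 1 ≤ q) {s s' : Fin n → ℕ}
    (h : IsoComb n q s s') : IsometricG n q s s' := by
  obtain ⟨σ, ε, hε, t, htq, hst⟩ := h
  let A : E n ≃ₗᵢ[ℝ] E n :=
    (LinearIsometryEquiv.piLpCongrLeft 2 ℝ ℂ σ.symm).trans
      (LinearIsometryEquiv.piLpCongrRight 2 fun j =>
        if ε j = 1 then LinearIsometryEquiv.refl ℝ ℂ else Complex.conjLIE)
  have hAz : ∀ z j, A z j = (if ε j = 1 then LinearIsometryEquiv.refl ℝ ℂ else Complex.conjLIE)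
      (z (σ j)) := by
    intro z j
    rfl
  have hconj : ∀ a : ℤ, (starRingEnd ℂ) (root q a) = root q (-a) := by
    intro a
    unfold root
    rw [← Complex.exp_conj]
    congr 1
    simp [map_ofNat]
  have hg : A * genI n q s ^ t = genI n q s' * A := by
    ext z j
    show A ((genI n q s ^ t) z) j = genI n q s' (A z) j
    rw [hAz, gen_apply, hAz, gen_pow_apply]
    rcases hε j with h1 | h1
    · rw [if_pos h1]
      show root q (t * s (σ j)) * z (σ j) = root q (s' j) * z (σ j)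
      congr 1
      rw [root_eq_iff hq]
      have h2 := (hst j).dvd
      rw [h1] at h2
      have h3 : (t : ℤ) * s (σ j) - s' j = 1 * t * s (σ j) - s' j := by ring
      rw [h3]
      exact h2
    · have h2 : ε j ≠ 1 := by omega
      rw [if_neg h2]
      show (starRingEnd ℂ) (root q (t * s (σ j)) * z (σ j)) =
        root q (s' j) * (starRingEnd ℂ) (z (σ j))
      rw [map_mul, hconj]
      congr 1
      rw [root_eq_iff hq]
      have h3 := (hst j).dvd
      rw [h1] at h3
      have h4 : -((t : ℤ) * s (σ j)) - s' j = -1 * t * s (σ j) - s' j := by ring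
      rw [h4]
      exact h3
  have hg2 : genI n q s' = A * genI n q s ^ t * A⁻¹ := by
    rw [hg, mul_assoc, mul_inv_cancel, mul_one]
  refine ⟨A, ?_⟩
  have hz : Subgroup.zpowers (genI n q s) = Subgroup.zpowers (genI n q s ^ t) := by
    apply le_antisymm
    · rw [Subgroup.zpowers_le]
      have hco : IsCoprime (t : ℤ) (q : ℤ) := Nat.isCoprime_iff_coprime.2 htq
      obtain ⟨a, b, hab⟩ := hco
      refine ⟨a, ?_⟩
      show (genI n q s ^ t) ^ a = genI n q s
      have h1 : (genI n q s) ^ ((t : ℤ) * a) = genI n q s := by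
        have h2 : (t : ℤ) * a = 1 + (q : ℤ) * (-b) := by linear_combination hab
        rw [h2, zpow_add, zpow_one, zpow_mul, zpow_natCast, gen_pow_q hq, one_zpow, mul_one]
      rw [← zpow_natCast, ← zpow_mul]
      exact h1
    · rw [Subgroup.zpowers_le]
      exact ⟨t, by simp⟩
  rw [hz, MonoidHom.map_zpowers, hg2]
  rfl

theorem genI_coe (n q : ℕ) (s : Fin n → ℕ) : (genI n q s : E n → E n) = gen n q s := by
  funext z
  ext j
  rw [gen_apply]
  rfl

theorem deck_eq {n q : ℕ} (hq : 1 ≤ q) (s : Fin n → ℕ) :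
    deck n q s = (fun B : E n ≃ₗᵢ[ℝ] E n => (B : E n → E n)) ''
      (Subgroup.zpowers (genI n q s) : Set (E n ≃ₗᵢ[ℝ] E n)) := by
  have hpow : ∀ k : ℕ, ((genI n q s ^ k : E n ≃ₗᵢ[ℝ] E n) : E n → E n) = (gen n q s)^[k] := by
    intro k
    rw [← genI_coe]
    induction k with
    | zero => rfl
    | succ k ih =>
      rw [pow_succ, Function.iterate_succ, ← ih]
      rfl
  ext f
  constructor
  · rintro ⟨k, rfl⟩
    exact ⟨genI n q s ^ k, ⟨k, by simp⟩, hpow k⟩
  · rintro ⟨B, hB, rfl⟩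
    obtain ⟨k, hk⟩ := (gen_finOrder hq s).mem_powers_iff_mem_zpowers.2 hB
    have hk' : genI n q s ^ k = B := hk
    exact ⟨k, by rw [← hk']; exact (hpow k).symm⟩

theorem isometric_iff_group {n q : ℕ} (hq : 1 ≤ q) (s s' : Fin n → ℕ) :
    Isometric n q s s' ↔ IsometricG n q s s' := by
  have key : ∀ A : E n ≃ₗᵢ[ℝ] E n, (fun (f : E n → E n) z => A (f (A.symm z))) '' deck n q s =
      (fun B : E n ≃ₗᵢ[ℝ] E n => (B : E n → E n)) ''
        ((Subgroup.zpowers (genI n q s)).map (MulAut.conj A).toMonoidHom :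
          Set (E n ≃ₗᵢ[ℝ] E n)) := by
    intro A
    rw [deck_eq hq, Set.image_image, Subgroup.coe_map, Set.image_image]
    rfl
  have hinj : Function.Injective (fun B : E n ≃ₗᵢ[ℝ] E n => (B : E n → E n)) :=
    DFunLike.coe_injective
  rw [isometric_iff_exists]
  unfold IsometricG
  refine exists_congr fun A => ?_
  rw [key, deck_eq hq s', hinj.image_injective.eq_iff]
  exact SetLike.coe_set_eq

theorem isometric_iff {n q : ℕ} (hn : 1 ≤ n) (hq : 1 ≤ q) {s s' : Fin n → ℕ}
    (hs : s ∈ params n q) : Isometric n q s s' ↔ IsoComb n q s s' :=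
  (isometric_iff_group hq s s').trans
    ⟨comb_of_isometric hn hq hs, isometric_of_comb hq⟩

end Pool.Agent.LensU
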