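import Pool.Agent.LensU.Cnt
import Pool.Agent.Hhelper63.Lens.Transfer

/-!
# Almost all lens spaces are spectrally unique: the assembly
-/

set_option autoImplicit false

namespace Pool.Agent.LensU

open Filter Topology

open Classical in
theorem mem_NN {n q : ℕ} {s : Fin n → ℕ} {k : ℕ} {a : Fin n → ℤ} :
    a ∈ ((Fintype.piFinset (fun _ : Fin n => Finset.Icc (-(k : ℤ)) (k : ℤ))).filter
      (fun a => ∑ j, |a j| = (k : ℤ) ∧ (∑ j, a j * (s j : ℤ)) ≡ 0 [ZMOD (q : ℤ)])) ↔
      ∑ j, |a j| = (k : ℤ) ∧ (q : ℤ) ∣ ∑ j, a j * (s j : ℤ) := by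
  rw [Finset.mem_filter, Fintype.mem_piFinset, Int.modEq_zero_iff_dvd]
  constructor
  · exact fun h => h.2
  · intro h
    refine ⟨fun j => ?_, h⟩
    rw [Finset.mem_Icc, ← abs_le, ← h.1]
    exact Finset.single_le_sum (f := fun j => |a j|) (fun i _ => abs_nonneg _) (Finset.mem_univ j)

theorem NN_comb {n q : ℕ} {s s' : Fin n → ℕ} (h : IsoComb n q s s') (k : ℕ) :
    NN n q s' k = NN n q s k := by
  classical
  obtain ⟨σ, ε, hε, t, htq, hst⟩ := h
  have hεabs : ∀ j, |ε j| = 1 := fun j => by rcases hε j with h | h <;> simp [h]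
  have hεsq : ∀ j, ε j * ε j = 1 := fun j => by rcases hε j with h | h <;> simp [h]
  -- the congruences correspond
  have hdvd : ∀ a : Fin n → ℤ, ((q : ℤ) ∣ ∑ j, a j * (s' j : ℤ)) ↔
      (q : ℤ) ∣ ∑ j, (ε j * a j) * (s (σ j) : ℤ) := by
    intro a
    have h1 : (∑ j, a j * (s' j : ℤ)) ≡ (t : ℤ) * ∑ j, (ε j * a j) * (s (σ j) : ℤ)
        [ZMOD (q : ℤ)] := by
      rw [Finset.mul_sum]
      refine Int.ModEq.sum ?_
      intro j _
      have h2 : (t : ℤ) * ((ε j * a j) * (s (σ j) : ℤ)) =
          a j * (ε j * (t : ℤ) * (s (σ j) : ℤ)) := by ring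
      rw [h2]
      exact (hst j).mul_left (a j)
    rw [← Int.modEq_zero_iff_dvd]
    constructor
    · intro h2
      have h3 := h1.symm.trans h2
      rw [Int.modEq_zero_iff_dvd] at h3
      exact (Int.isCoprime_iff_gcd_eq_one.2 (by
        rw [Int.gcd_natCast_natCast]; exact htq.symm)).dvd_of_dvd_mul_left h3
    · intro h2
      exact h1.trans ((Int.modEq_zero_iff_dvd).2 (h2.mul_left _))
  unfold NN
  refine Finset.card_nbij' (fun a i => ε (σ.symm i) * a (σ.symm i)) (fun b j => ε j * b (σ j))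
    ?_ ?_ ?_ ?_
  · intro a ha
    rw [Finset.mem_coe, mem_NN] at ha ⊢
    refine ⟨?_, ?_⟩
    · rw [← ha.1]
      rw [← Equiv.sum_comp σ.symm (fun j => |a j|)]
      refine Finset.sum_congr rfl fun i _ => ?_
      rw [abs_mul, hεabs, one_mul]
    · have h2 := (hdvd a).1 ha.2
      rw [← Equiv.sum_comp σ.symm (fun j => (ε j * a j) * (s (σ j) : ℤ))] at h2
      simpa using h2
  · intro b hb
    rw [Finset.mem_coe, mem_NN] at hb ⊢
    refine ⟨?_, ?_⟩
    · rw [← hb.1]
      rw [← Equiv.sum_comp σ (fun j => |b j|)]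
      refine Finset.sum_congr rfl fun i _ => ?_
      rw [abs_mul, hεabs, one_mul]
    · rw [hdvd]
      have h2 := hb.2
      rw [← Equiv.sum_comp σ (fun j => b j * (s j : ℤ))] at h2
      refine h2.trans (dvd_of_eq ?_)
      refine Finset.sum_congr rfl fun i _ => ?_
      rw [← mul_assoc, hεsq, one_mul]
  · intro a _
    funext j
    simp only [Equiv.symm_apply_apply]
    rw [← mul_assoc, hεsq, one_mul]
  · intro b _
    funext i
    simp only [Equiv.apply_symm_apply]
    rw [← mul_assoc, hεsq, one_mul]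

open Classical in
/-- the class of `s` as a finite set -/
noncomputable def cls (n q : ℕ) (s : Fin n → ℕ) : Finset (Fin n → ℕ) :=
  (params n q).filter fun s' => IsoComb n q s s'

theorem cls_eq_iff {n q : ℕ} (hn : 1 ≤ n) (hq : 1 ≤ q) {s s' : Fin n → ℕ} (hs : s ∈ params n q)
    (hs' : s' ∈ params n q) : cls n q s = cls n q s' ↔ Isometric n q s s' := by
  classical
  constructor
  · intro h
    have h1 : s' ∈ cls n q s' := Finset.mem_filter.2
      ⟨hs', (isometric_iff hn hq hs').1 ((isometric_equivalence n q).refl s')⟩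
    rw [← h] at h1
    exact (isometric_iff hn hq hs).2 (Finset.mem_filter.1 h1).2
  · intro h
    apply Finset.filter_congr
    intro x _
    rw [← isometric_iff hn hq hs, ← isometric_iff hn hq hs']
    exact ⟨fun h' => (isometric_equivalence n q).trans ((isometric_equivalence n q).symm h) h',
      fun h' => (isometric_equivalence n q).trans h h'⟩

/-- the class of a lens space as a finite set -/
noncomputable def F {n q : ℕ} (hn : 1 ≤ n) (hq : 1 ≤ q) : Lens n q → Finset (Fin n → ℕ) :=
  Quotient.lift (fun s : params n q => cls n q s)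
    fun s s' h => (cls_eq_iff hn hq s.2 s'.2).2 h

theorem F_inj {n q : ℕ} (hn : 1 ≤ n) (hq : 1 ≤ q) : Function.Injective (F hn hq) := by
  intro L L'
  induction L using Quotient.inductionOn with
  | _ s =>
    induction L' using Quotient.inductionOn with
    | _ s' =>
      intro h
      exact Quotient.sound ((cls_eq_iff hn hq s.2 s'.2).1 h)

open Classical in
theorem F_mem {n q : ℕ} (hn : 1 ≤ n) (hq : 1 ≤ q) (L : Lens n q) :
    F hn hq L ∈ (params n q).image (cls n q) := by
  induction L using Quotient.inductionOn with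
  | _ s => exact Finset.mem_image.2 ⟨s, s.2, rfl⟩

open Classical in
theorem card_lens {n q : ℕ} (hn : 1 ≤ n) (hq : 1 ≤ q) :
    Nat.card (Lens n q) = ((params n q).image (cls n q)).card := by
  rw [← Fintype.card_coe, ← Nat.card_eq_fintype_card]
  refine Nat.card_congr (Equiv.ofBijective
    (fun L => (⟨F hn hq L, F_mem hn hq L⟩ : (params n q).image (cls n q))) ⟨?_, ?_⟩)
  · intro L L' h
    exact F_inj hn hq (congrArg Subtype.val h)
  · rintro ⟨X, hX⟩
    obtain ⟨s, hs, rfl⟩ := Finset.mem_image.1 hX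
    exact ⟨Quotient.mk (isomSetoid n q) ⟨s, hs⟩, rfl⟩

theorem lens_finite {n q : ℕ} (hn : 1 ≤ n) (hq : 1 ≤ q) : Finite (Lens n q) := by
  classical
  exact Finite.of_injective
    (fun L => (⟨F hn hq L, F_mem hn hq L⟩ : (params n q).image (cls n q)))
    fun L L' h => F_inj hn hq (congrArg Subtype.val h)

/-- the combinatorial form of spectral uniqueness -/
theorem unique_of_comb {n q : ℕ} (hn : 1 ≤ n) (hq : 1 ≤ q) (s : params n q)
    (h : ∀ s' ∈ params n q, (∀ k, NN n q s k = NN n q s' k) → IsoComb n q s s') :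
    SpectrallyUnique n q (Quotient.mk (isomSetoid n q) s) := by
  intro s1 hs1 s' hspec
  have h1 : Isometric n q s1 s := Quotient.exact hs1
  have h2 : ∀ k, NN n q s k = NN n q s' k := by
    intro k
    rw [NN_comb ((isometric_iff hn hq s1.2).1 h1) k]
    exact NN_eq (card_MS_eq hn hq hspec) k
  have h3 : Isometric n q s s' := (isometric_iff hn hq s.2).2 (h s' s'.2 h2)
  exact (Quotient.sound h3).symm

open Classical in
theorem card_unique {n q : ℕ} (hn : 1 ≤ n) (hq : 1 ≤ q) :
    (((params n q).filter (fun s => ∀ s' ∈ params n q,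
      (∀ k, NN n q s k = NN n q s' k) → IsoComb n q s s')).image (cls n q)).card ≤
      Nat.card {L : Lens n q // SpectrallyUnique n q L} := by
  have := lens_finite hn hq
  rw [← Fintype.card_coe, ← Nat.card_eq_fintype_card]
  have hex : ∀ X : (((params n q).filter (fun s => ∀ s' ∈ params n q,
      (∀ k, NN n q s k = NN n q s' k) → IsoComb n q s s')).image (cls n q) : Finset _),
      ∃ L : {L : Lens n q // SpectrallyUnique n q L}, F hn hq L = X := by
    rintro ⟨X, hX⟩
    obtain ⟨s, hs, rfl⟩ := Finset.mem_image.1 hX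
    obtain ⟨hs1, hs2⟩ := Finset.mem_filter.1 hs
    exact ⟨⟨Quotient.mk (isomSetoid n q) ⟨s, hs1⟩, unique_of_comb hn hq ⟨s, hs1⟩ hs2⟩, rfl⟩
  choose g hg using hex
  refine Nat.card_le_card_of_injective g ?_
  intro X Y h
  apply Subtype.ext
  rw [← hg X, ← hg Y, h]

theorem U_nat (n x : ℕ) : U n (x : ℝ) =
    (∑ q ∈ Finset.Icc 1 x, (Nat.card {L : Lens n q // SpectrallyUnique n q L} : ℝ)) /
      ∑ q ∈ Finset.Icc 1 x, (Nat.card (Lens n q) : ℝ) := by
  unfold U
  rw [Nat.floor_natCast]

theorem U_floor (n : ℕ) (x : ℝ) : U n x = U n ((⌊x⌋₊ : ℕ) : ℝ) := by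
  unfold U
  rw [Nat.floor_natCast]

open Classical in
theorem tendsto_nat (n : ℕ) (hn : 1 ≤ n) :
    Tendsto (fun x : ℕ => U n (x : ℝ)) atTop (𝓝 1) := by
  have h := Pool.Agent.Hhelper63.Lens.density n hn (params n) (fun q => rfl) (IsoComb n)
    (fun q s s' => Iff.rfl) (fun q s s' => ∀ k, NN n q s k = NN n q s' k)
    (fun q s s' => by
      unfold NN
      exact Iff.rfl)
  refine tendsto_of_tendsto_of_tendsto_of_le_of_le h tendsto_const_nhds ?_ ?_
  · intro x
    show _ ≤ U n (x : ℝ)
    rw [U_nat]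
    have hden : (∑ q ∈ Finset.Icc 1 x, (Nat.card (Lens n q) : ℝ)) =
        ∑ q ∈ Finset.Icc 1 x, ((((params n q)).image
          (fun s => (params n q).filter (fun s' => IsoComb n q s s'))).card : ℝ) := by
      refine Finset.sum_congr rfl fun q hq => ?_
      rw [card_lens hn (Finset.mem_Icc.1 hq).1]
      unfold cls
      congr!
    rw [hden]
    refine div_le_div_of_nonneg_right (Finset.sum_le_sum fun q hq => ?_)
      (Finset.sum_nonneg fun q _ => Nat.cast_nonneg _)
    have h1 := card_unique (n := n) hn (Finset.mem_Icc.1 hq).1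
    refine le_trans (le_of_eq ?_) (Nat.cast_le.2 h1)
    unfold cls
    congr!
  · intro x
    show U n (x : ℝ) ≤ 1
    rw [U_nat]
    refine div_le_one_of_le₀ (Finset.sum_le_sum fun q hq => ?_)
      (Finset.sum_nonneg fun q _ => Nat.cast_nonneg _)
    have := lens_finite (n := n) hn (Finset.mem_Icc.1 hq).1
    exact Nat.cast_le.2 (Nat.card_le_card_of_injective _ Subtype.val_injective)

theorem tendsto_real (n : ℕ) (hn : 1 ≤ n) : Tendsto (U n) atTop (𝓝 1) := by
  have h := (tendsto_nat n hn).comp (tendsto_nat_floor_atTop (α := ℝ))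
  refine h.congr fun x => ?_
  exact (U_floor n x).symm

end Pool.Agent.LensU
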