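import Pool.Agent.LensU.Isom

/-!
# Multiplicities of the Laplacian and invariant monomials

`MS n q s k`: the exponents of degree `k` of the invariant monomials.  The Laplacian maps the span of
the invariant monomials of degree `k + 2` onto the span of those of degree `k`.
-/

set_option autoImplicit false

namespace Pool.Agent.LensU

open MvPolynomial

/-- the weight of a monomial -/
def wt {n : ℕ} (s : Fin n → ℕ) (m : Fin n ⊕ Fin n →₀ ℕ) : ℤ :=
  ∑ j : Fin n, ((m (Sum.inl j) : ℤ) - m (Sum.inr j)) * s j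

/-- exponents of invariant monomials -/
def MS (n q : ℕ) (s : Fin n → ℕ) (k : ℕ) : Set (Fin n ⊕ Fin n →₀ ℕ) :=
  {m | m.degree = k ∧ (q : ℤ) ∣ wt s m}

theorem MS_finite (n q : ℕ) (s : Fin n → ℕ) (k : ℕ) : (MS n q s k).Finite := by
  refine (Finsupp.finite_of_degree_le k).subset ?_
  rintro m ⟨h, -⟩
  exact h.le

theorem root_pow (q : ℕ) (a : ℤ) (m : ℕ) : root q a ^ m = root q (m * a) := by
  induction m with
  | zero => simp [root_zero]
  | succ m ih =>
    rw [pow_succ, ih, ← root_add]
    congr 1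
    push_cast
    ring

theorem root_prod {ι : Type*} (q : ℕ) (S : Finset ι) (f : ι → ℤ) :
    ∏ i ∈ S, root q (f i) = root q (∑ i ∈ S, f i) := by
  classical
  induction S using Finset.induction_on with
  | empty => simp [root_zero]
  | insert a S ha ih => rw [Finset.prod_insert ha, Finset.sum_insert ha, ih, root_add]

theorem coeff_compGen (n q : ℕ) (s : Fin n → ℕ) (p : Poly n) (m : Fin n ⊕ Fin n →₀ ℕ) :
    coeff m (compGen n q s p) = root q (wt s m) * coeff m p := by
  classical
  have hmon : ∀ (m' : Fin n ⊕ Fin n →₀ ℕ) (a : ℂ),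
      compGen n q s (monomial m' a) = monomial m' (root q (wt s m') * a) := by
    intro m' a
    unfold compGen
    rw [aeval_monomial, Finsupp.prod_fintype _ _ (fun i => pow_zero _)]
    rw [Fintype.prod_sum_type]
    simp only [Sum.elim_inl, Sum.elim_inr, mul_pow, ← map_pow, root_pow]
    rw [Finset.prod_mul_distrib, Finset.prod_mul_distrib, ← map_prod, ← map_prod, root_prod,
      root_prod]
    have e1 : (C (root q (∑ j : Fin n, (m' (Sum.inl j) : ℤ) * s j)) *
        ∏ j : Fin n, (X (Sum.inl j) : Poly n) ^ m' (Sum.inl j)) *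
        (C (root q (∑ j : Fin n, (m' (Sum.inr j) : ℤ) * -(s j : ℤ))) *
        ∏ j : Fin n, (X (Sum.inr j) : Poly n) ^ m' (Sum.inr j)) =
        C (root q (wt s m')) * monomial m' 1 := by
      rw [monomial_eq, Finsupp.prod_fintype _ _ (fun i => pow_zero _), Fintype.prod_sum_type, C_1,
        one_mul]
      have e2 : wt s m' = (∑ j : Fin n, (m' (Sum.inl j) : ℤ) * s j) +
          ∑ j : Fin n, (m' (Sum.inr j) : ℤ) * -(s j : ℤ) := by
        unfold wt
        rw [← Finset.sum_add_distrib]
        refine Finset.sum_congr rfl fun j _ => ?_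
        ring
      rw [e2, root_add, C_mul]
      ring
    rw [e1, algebraMap_eq, ← mul_assoc, ← C_mul, C_mul_monomial, mul_one, mul_comm a]
  induction p using MvPolynomial.induction_on' with
  | monomial m' a =>
    rw [hmon, coeff_monomial, coeff_monomial]
    by_cases h : m' = m
    · rw [if_pos h, if_pos h, h]
    · rw [if_neg h, if_neg h, mul_zero]
  | add p p' h1 h2 =>
    have : compGen n q s (p + p') = compGen n q s p + compGen n q s p' := by
      simp only [compGen, map_add]
    rw [this, coeff_add, coeff_add, h1, h2, mul_add]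

theorem weight_eq_degree {n : ℕ} (m : Fin n ⊕ Fin n →₀ ℕ) :
    Finsupp.weight (1 : Fin n ⊕ Fin n → ℕ) m = m.degree :=
  (DFunLike.congr_fun Finsupp.degree_eq_weight_one m).symm

theorem mem_restrict_iff {n q : ℕ} (hq : 1 ≤ q) (s : Fin n → ℕ) (k : ℕ) (p : Poly n) :
    p ∈ restrictSupport ℂ (MS n q s k) ↔ p.IsHomogeneous k ∧ compGen n q s p = p := by
  rw [mem_restrictSupport_iff]
  constructor
  · intro h
    constructor
    · intro m hm
      have h1 := h (Finset.mem_coe.2 (mem_support_iff.2 hm))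
      rw [weight_eq_degree]
      exact h1.1
    · ext m
      rw [coeff_compGen]
      by_cases hm : coeff m p = 0
      · rw [hm, mul_zero]
      · have h1 := h (Finset.mem_coe.2 (mem_support_iff.2 hm))
        rw [(root_eq_one_iff hq _).2 h1.2, one_mul]
  · rintro ⟨h1, h2⟩ m hm
    have hm' : coeff m p ≠ 0 := mem_support_iff.1 (Finset.mem_coe.1 hm)
    refine ⟨?_, ?_⟩
    · have h3 := h1 hm'
      rw [weight_eq_degree] at h3
      exact h3
    · have h3 := coeff_compGen n q s p m
      rw [h2] at h3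
      have h4 : 1 * coeff m p = root q (wt s m) * coeff m p := by rw [one_mul]; exact h3
      exact (root_eq_one_iff hq _).1 (mul_right_cancel₀ hm' h4).symm

theorem mem_eigenspace {n q : ℕ} (hq : 1 ≤ q) (s : Fin n → ℕ) (k : ℕ) (p : Poly n) :
    p ∈ eigenspace n q s k ↔ p ∈ restrictSupport ℂ (MS n q s k) ∧ laplacian n p = 0 := by
  rw [mem_restrict_iff hq]
  constructor
  · rintro ⟨h1, h2, h3⟩
    exact ⟨⟨h1, h3⟩, h2⟩
  · rintro ⟨⟨h1, h3⟩, h2⟩
    exact ⟨h1, h2, h3⟩

/-- the Laplacian as a linear map -/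
noncomputable def lapL (n : ℕ) : Poly n →ₗ[ℂ] Poly n where
  toFun := laplacian n
  map_add' a b := by
    simp only [laplacian, map_add, Finset.sum_add_distrib, smul_add]
  map_smul' c a := by
    simp only [laplacian, Derivation.map_smul, ← Finset.smul_sum, RingHom.id_apply]
    rw [smul_comm]

theorem laplacian_monomial (n : ℕ) (m : Fin n ⊕ Fin n →₀ ℕ) (a : ℂ) :
    laplacian n (monomial m a) = ∑ j : Fin n,
      monomial (m - Finsupp.single (Sum.inr j) 1 - Finsupp.single (Sum.inl j) 1)
        (4 * a * (m (Sum.inl j)) * (m (Sum.inr j))) := by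
  unfold laplacian
  rw [Finset.smul_sum]
  refine Finset.sum_congr rfl fun j _ => ?_
  rw [pderiv_monomial, pderiv_monomial, smul_monomial]
  congr 1
  have h : (m - (Finsupp.single (Sum.inr j) 1 : Fin n ⊕ Fin n →₀ ℕ)) (Sum.inl j) =
      m (Sum.inl j) := by
    rw [Finsupp.tsub_apply, Finsupp.single_apply, if_neg (by simp)]
    rfl
  rw [h, smul_eq_mul]
  ring

theorem degree_tsub {n : ℕ} (m : Fin n ⊕ Fin n →₀ ℕ) (j : Fin n) (h1 : m (Sum.inl j) ≠ 0)
    (h2 : m (Sum.inr j) ≠ 0) :
    ∃ m' : Fin n ⊕ Fin n →₀ ℕ,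
      m - Finsupp.single (Sum.inr j) 1 - Finsupp.single (Sum.inl j) 1 = m' ∧
      m = m' + Finsupp.single (Sum.inl j) 1 + Finsupp.single (Sum.inr j) 1 := by
  refine ⟨_, rfl, ?_⟩
  ext i
  simp only [Finsupp.add_apply, Finsupp.tsub_apply, Finsupp.single_apply]
  rcases i with i | i
  · by_cases h : j = i
    · subst h
      simp
      omega
    · simp [h]
  · by_cases h : j = i
    · subst h
      simp
      omega
    · simp [h]

theorem wt_add_pair {n : ℕ} (s : Fin n → ℕ) (m : Fin n ⊕ Fin n →₀ ℕ) (j : Fin n) :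
    wt s (m + Finsupp.single (Sum.inl j) 1 + Finsupp.single (Sum.inr j) 1) = wt s m := by
  unfold wt
  refine Finset.sum_congr rfl fun i _ => ?_
  simp only [Finsupp.add_apply, Finsupp.single_apply]
  by_cases h : j = i
  · subst h
    simp
  · simp [h]

theorem degree_add_pair {n : ℕ} (m : Fin n ⊕ Fin n →₀ ℕ) (j : Fin n) :
    (m + Finsupp.single (Sum.inl j) 1 + Finsupp.single (Sum.inr j) 1).degree = m.degree + 2 := by
  rw [map_add, map_add, Finsupp.degree_single, Finsupp.degree_single]

theorem MS_add_pair {n q : ℕ} {s : Fin n → ℕ} {k : ℕ} {m : Fin n ⊕ Fin n →₀ ℕ} (j : Fin n) :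
    m + Finsupp.single (Sum.inl j) 1 + Finsupp.single (Sum.inr j) 1 ∈ MS n q s (k + 2) ↔
      m ∈ MS n q s k := by
  have h1 := degree_add_pair m j
  constructor
  · rintro ⟨h2, h3⟩
    rw [wt_add_pair] at h3
    exact ⟨by omega, h3⟩
  · rintro ⟨h2, h3⟩
    refine ⟨by omega, ?_⟩
    rw [wt_add_pair]
    exact h3

theorem lap_mem {n q : ℕ} {s : Fin n → ℕ} {k : ℕ} {p : Poly n}
    (hp : p ∈ restrictSupport ℂ (MS n q s (k + 2))) :
    laplacian n p ∈ restrictSupport ℂ (MS n q s k) := by
  have h : restrictSupport ℂ (MS n q s (k + 2)) ≤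
      (restrictSupport ℂ (MS n q s k)).comap (lapL n) := by
    rw [restrictSupport_eq_span, Submodule.span_le]
    rintro _ ⟨m, hm, rfl⟩
    show laplacian n (monomial m 1) ∈ restrictSupport ℂ (MS n q s k)
    rw [laplacian_monomial]
    refine Submodule.sum_mem _ fun j _ => ?_
    rw [monomial_mem_restrictSupport]
    by_cases h1 : m (Sum.inl j) = 0
    · right; rw [h1]; simp
    by_cases h2 : m (Sum.inr j) = 0
    · right; rw [h2]; simp
    left
    obtain ⟨m', e1, e2⟩ := degree_tsub m j h1 h2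
    rw [e1]
    rw [e2] at hm
    exact (MS_add_pair j).1 hm
  exact h hp

theorem lap_low {n q : ℕ} {s : Fin n → ℕ} {k : ℕ} (hk : k < 2) {p : Poly n}
    (hp : p ∈ restrictSupport ℂ (MS n q s k)) : laplacian n p = 0 := by
  have h : restrictSupport ℂ (MS n q s k) ≤ LinearMap.ker (lapL n) := by
    rw [restrictSupport_eq_span, Submodule.span_le]
    rintro _ ⟨m, hm, rfl⟩
    show laplacian n (monomial m 1) = 0
    rw [laplacian_monomial]
    refine Finset.sum_eq_zero fun j _ => ?_
    by_cases h1 : m (Sum.inl j) = 0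
    · rw [h1]; simp
    by_cases h2 : m (Sum.inr j) = 0
    · rw [h2]; simp
    exfalso
    obtain ⟨m', e1, e2⟩ := degree_tsub m j h1 h2
    have h3 := hm.1
    rw [e2, degree_add_pair] at h3
    omega
  exact h hp

theorem mono_in_range {n q : ℕ} (j0 : Fin n) {s : Fin n → ℕ} {k : ℕ} (N : ℕ) :
    ∀ m : Fin n ⊕ Fin n →₀ ℕ, m ∈ MS n q s k →
      ∑ j ∈ Finset.univ.erase j0, m (Sum.inr j) = N →
      (monomial m 1 : Poly n) ∈ (restrictSupport ℂ (MS n q s (k + 2))).map (lapL n) := by
  induction N using Nat.strong_induction_on with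
  | _ N ih =>
    intro m hm hN
    set R := (restrictSupport ℂ (MS n q s (k + 2))).map (lapL n) with hR
    set M := m + Finsupp.single (Sum.inl j0) 1 + Finsupp.single (Sum.inr j0) 1 with hM
    have hMS : M ∈ MS n q s (k + 2) := (MS_add_pair j0).2 hm
    have h1 : lapL n (monomial M 1) ∈ R :=
      ⟨monomial M 1, by
        rw [SetLike.mem_coe, monomial_mem_restrictSupport]
        exact Or.inl hMS, rfl⟩
    have h2 : lapL n (monomial M 1) = laplacian n (monomial M 1) := rfl
    rw [h2, laplacian_monomial, ← Finset.add_sum_erase _ _ (Finset.mem_univ j0)] at h1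
    have h3 : ∀ j ∈ Finset.univ.erase j0,
        (monomial (M - Finsupp.single (Sum.inr j) 1 - Finsupp.single (Sum.inl j) 1)
          (4 * 1 * (M (Sum.inl j)) * (M (Sum.inr j))) : Poly n) ∈ R := by
      intro j hj
      have hjj : j ≠ j0 := (Finset.mem_erase.1 hj).1
      have hl : M (Sum.inl j) = m (Sum.inl j) := by
        rw [hM]
        simp [Finsupp.single_apply, hjj.symm]
      have hr : M (Sum.inr j) = m (Sum.inr j) := by
        rw [hM]
        simp [Finsupp.single_apply, hjj.symm]
      by_cases h4 : M (Sum.inl j) = 0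
      · rw [h4]; simp
      by_cases h5 : M (Sum.inr j) = 0
      · rw [h5]; simp
      obtain ⟨m', e1, e2⟩ := degree_tsub M j h4 h5
      rw [e1]
      have h6 : m' ∈ MS n q s k := by
        rw [e2] at hMS
        exact (MS_add_pair j).1 hMS
      have h7 : ∀ i ∈ Finset.univ.erase j0, m (Sum.inr i) =
          m' (Sum.inr i) + if i = j then 1 else 0 := by
        intro i hi
        have hi0 : i ≠ j0 := (Finset.mem_erase.1 hi).1
        have h8 : M (Sum.inr i) = m (Sum.inr i) := by
          rw [hM]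
          simp [Finsupp.single_apply, hi0.symm]
        rw [← h8, e2]
        by_cases hij : i = j
        · subst hij
          simp
        · have : ¬ j = i := fun h => hij h.symm
          simp [Finsupp.single_apply, hij, this]
      have h9 : ∑ i ∈ Finset.univ.erase j0, m' (Sum.inr i) + 1 = N := by
        rw [← hN, Finset.sum_congr rfl h7, Finset.sum_add_distrib, Finset.sum_ite_eq', if_pos hj]
      have h10 := ih (∑ i ∈ Finset.univ.erase j0, m' (Sum.inr i)) (by omega) m' h6 rfl
      have h11 := R.smul_mem (4 * 1 * (M (Sum.inl j)) * (M (Sum.inr j)) : ℂ) h10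
      rw [smul_monomial, smul_eq_mul, mul_one] at h11
      exact h11
    have h4 := R.sum_mem h3
    have h5 := R.sub_mem h1 h4
    rw [add_sub_cancel_right] at h5
    have h6 : M - Finsupp.single (Sum.inr j0) 1 - Finsupp.single (Sum.inl j0) 1 = m := by
      rw [hM, add_tsub_cancel_right, add_tsub_cancel_right]
    rw [h6] at h5
    have hl : M (Sum.inl j0) = m (Sum.inl j0) + 1 := by
      rw [hM]
      simp
    have hr : M (Sum.inr j0) = m (Sum.inr j0) + 1 := by
      rw [hM]
      simp
    rw [hl, hr] at h5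
    have h7 : ((4 : ℂ) * 1 * ((m (Sum.inl j0) + 1 : ℕ) : ℂ) * ((m (Sum.inr j0) + 1 : ℕ) : ℂ)) ≠ 0 := by
      have a1 : ((m (Sum.inl j0) + 1 : ℕ) : ℂ) ≠ 0 :=
        Nat.cast_ne_zero.2 (Nat.succ_ne_zero (m (Sum.inl j0)))
      have a2 : ((m (Sum.inr j0) + 1 : ℕ) : ℂ) ≠ 0 :=
        Nat.cast_ne_zero.2 (Nat.succ_ne_zero (m (Sum.inr j0)))
      exact mul_ne_zero (mul_ne_zero (by norm_num) a1) a2
    have h8 := R.smul_mem
      ((4 : ℂ) * 1 * ((m (Sum.inl j0) + 1 : ℕ) : ℂ) * ((m (Sum.inr j0) + 1 : ℕ) : ℂ))⁻¹ h5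
    rw [smul_monomial, smul_eq_mul, inv_mul_cancel₀ h7] at h8
    exact h8

theorem lap_surj {n q : ℕ} (hn : 1 ≤ n) (s : Fin n → ℕ) (k : ℕ) :
    (restrictSupport ℂ (MS n q s (k + 2))).map (lapL n) = restrictSupport ℂ (MS n q s k) := by
  apply le_antisymm
  · rintro _ ⟨p, hp, rfl⟩
    exact lap_mem hp
  · rw [restrictSupport_eq_span ℂ (MS n q s k), Submodule.span_le]
    rintro _ ⟨m, hm, rfl⟩
    exact mono_in_range ⟨0, hn⟩ _ m hm rfl

theorem finrank_restrict (n q : ℕ) (s : Fin n → ℕ) (k : ℕ) :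
    Module.finrank ℂ (restrictSupport ℂ (MS n q s k)) = Nat.card (MS n q s k) :=
  Module.finrank_eq_nat_card_basis (basisRestrictSupport ℂ (MS n q s k))

theorem finrank_low {n q : ℕ} (hq : 1 ≤ q) (s : Fin n → ℕ) {k : ℕ} (hk : k < 2) :
    Module.finrank ℂ (eigenspace n q s k) = Nat.card (MS n q s k) := by
  rw [← finrank_restrict]
  have : eigenspace n q s k = restrictSupport ℂ (MS n q s k) := by
    ext p
    rw [mem_eigenspace hq]
    exact ⟨fun h => h.1, fun h => ⟨h, lap_low hk h⟩⟩
  rw [this]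

theorem finrank_high {n q : ℕ} (hn : 1 ≤ n) (hq : 1 ≤ q) (s : Fin n → ℕ) (k : ℕ) :
    Nat.card (MS n q s k) + Module.finrank ℂ (eigenspace n q s (k + 2)) =
      Nat.card (MS n q s (k + 2)) := by
  set V := restrictSupport ℂ (MS n q s (k + 2)) with hV
  have : Finite (MS n q s (k + 2)) := (MS_finite n q s (k + 2)).to_subtype
  have : Module.Finite ℂ V := Module.Finite.of_basis (basisRestrictSupport ℂ (MS n q s (k + 2)))
  set g := (lapL n).domRestrict V with hg
  have h1 := LinearMap.finrank_range_add_finrank_ker g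
  have h2 : LinearMap.range g = restrictSupport ℂ (MS n q s k) := by
    rw [hg, LinearMap.range_domRestrict, lap_surj hn]
  have h3 : (LinearMap.ker g).map V.subtype = eigenspace n q s (k + 2) := by
    ext p
    rw [mem_eigenspace hq]
    constructor
    · rintro ⟨x, hx, rfl⟩
      exact ⟨x.2, hx⟩
    · rintro ⟨h4, h5⟩
      exact ⟨⟨p, h4⟩, h5, rfl⟩
  have h4 : Module.finrank ℂ (LinearMap.ker g) =
      Module.finrank ℂ (eigenspace n q s (k + 2)) := by
    rw [← h3]
    exact (Submodule.equivMapOfInjective V.subtype V.injective_subtype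
      (LinearMap.ker g)).finrank_eq
  rw [h2, h4, finrank_restrict, hV, finrank_restrict] at h1
  exact h1

theorem card_MS_eq {n q : ℕ} (hn : 1 ≤ n) (hq : 1 ≤ q) {s s' : Fin n → ℕ}
    (h : SameSpectrum n q s s') (k : ℕ) : Nat.card (MS n q s k) = Nat.card (MS n q s' k) := by
  induction k using Nat.strong_induction_on with
  | _ k ih =>
    rcases lt_or_ge k 2 with hk | hk
    · rw [← finrank_low hq s hk, ← finrank_low hq s' hk]
      exact h k
    · obtain ⟨r, rfl⟩ : ∃ r, k = r + 2 := ⟨k - 2, by omega⟩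
      rw [← finrank_high hn hq s r, ← finrank_high hn hq s' r, ih r (by omega), h (r + 2)]

end Pool.Agent.LensU
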